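import Pool.Agent.N124.CU.Stm2

/-!
Algebraically closed subfields of `ℂ` attached to the sets of indices (subtask CU/FLD).
-/

set_option autoImplicit false

namespace Pool.Agent.N277.CU

open Pool.Agent.N124.CU

/-- the base field of a set of indices -/
noncomputable def base (x : Fin 13 → ℝ) (S : Set (Fin 13)) : IntermediateField ℚ ℂ :=
  IntermediateField.adjoin ℚ ((fun j => (x j : ℂ)) '' S)

/-- the algebraic closure in `ℂ` -/
noncomputable def KK (x : Fin 13 → ℝ) (S : Set (Fin 13)) : Subfield ℂ :=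
  (algebraicClosure (base x S) ℂ).toSubfield

theorem mem_KK {x : Fin 13 → ℝ} {S : Set (Fin 13)} {z : ℂ} :
    z ∈ KK x S ↔ IsAlgebraic (base x S) z := by
  unfold KK
  show z ∈ algebraicClosure (base x S) ℂ ↔ _
  rw [mem_algebraicClosure_iff]

theorem KK_mem (x : Fin 13 → ℝ) (S : Set (Fin 13)) (j : Fin 13) (hj : j ∈ S) :
    (x j : ℂ) ∈ KK x S := by
  rw [mem_KK]
  have h : (x j : ℂ) ∈ base x S := IntermediateField.subset_adjoin _ _ ⟨j, hj, rfl⟩
  exact isAlgebraic_algebraMap (R := base x S) (A := ℂ) ⟨_, h⟩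

theorem base_mono (x : Fin 13 → ℝ) {S T : Set (Fin 13)} (h : S ⊆ T) : base x S ≤ base x T :=
  IntermediateField.adjoin.mono _ _ _ (Set.image_mono h)

theorem KK_mono (x : Fin 13 → ℝ) {S T : Set (Fin 13)} (h : S ⊆ T) : KK x S ≤ KK x T := by
  intro z hz
  rw [mem_KK] at hz ⊢
  have hle := base_mono x h
  obtain ⟨p, hp, hz⟩ := hz
  refine ⟨p.map (IntermediateField.inclusion hle).toRingHom, ?_, ?_⟩
  · exact (Polynomial.map_ne_zero_iff (IntermediateField.inclusion hle).injective).2 hp
  · rw [Polynomial.aeval_def, Polynomial.eval₂_map]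
    rw [Polynomial.aeval_def] at hz
    exact hz

theorem KK_root (x : Fin 13 → ℝ) (S : Set (Fin 13)) : QC (KK x S) := by
  intro a b c z ha hb hc h0 hz
  rw [mem_KK]
  set F := base x S
  let A := algebraicClosure F ℂ
  have hA : Algebra.IsAlgebraic F A := inferInstance
  have hz' : IsAlgebraic A z := by
    refine ⟨Polynomial.C (⟨a, ha⟩ : A) * Polynomial.X ^ 2 + Polynomial.C (⟨b, hb⟩ : A) *
      Polynomial.X + Polynomial.C (⟨c, hc⟩ : A), ?_, ?_⟩
    · intro h
      have h2 := congrArg (fun p => Polynomial.coeff p 2) h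
      have h1 := congrArg (fun p => Polynomial.coeff p 1) h
      have h3 := congrArg (fun p => Polynomial.coeff p 0) h
      simp [Polynomial.coeff_X, Polynomial.coeff_C] at h1 h2 h3
      have e2 : a = 0 := congrArg Subtype.val h2
      have e1 : b = 0 := congrArg Subtype.val h1
      have e3 : c = 0 := congrArg Subtype.val h3
      rcases h0 with h0 | h0 | h0
      · exact h0 e2
      · exact h0 e1
      · exact h0 e3
    · simp only [map_add, map_mul, Polynomial.aeval_C, map_pow, Polynomial.aeval_X]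
      exact hz
  exact IsAlgebraic.restrictScalars F hz'

theorem KK_not_mem (x : Fin 13 → ℝ) (hx : AlgebraicIndependent ℚ x) (S : Set (Fin 13))
    (j : Fin 13) (hj : j ∉ S) : (x j : ℂ) ∉ KK x S := by
  rw [mem_KK]
  have hc : AlgebraicIndependent ℚ (fun j => (x j : ℂ)) := by
    have := hx.map' (f := (Complex.ofRealAm.restrictScalars ℚ : ℝ →ₐ[ℚ] ℂ))
      (fun a b h => Complex.ofReal_injective h)
    exact this
  have ht := hc.transcendental_adjoin hj
  exact (IntermediateField.transcendental_adjoin_iff (F := ℚ)).2 ht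

theorem t_field : S_field := fun x hx =>
  ⟨{ K := KK x
     mem := KK_mem x
     not_mem := KK_not_mem x hx
     root := KK_root x
     mono := fun _ _ h => KK_mono x h }⟩

end Pool.Agent.N277.CU
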